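import Pool.Agent.W649.ZL.Fam

set_option autoImplicit false
set_option linter.unusedSectionVars false

open scoped InnerProductSpace InnerProduct ENNReal

/-! Kernel dimensions along operator polynomials. -/

namespace Pool.Agent.V1132.KD

open Pool.Agent.W649.ZL

universe u v w

section
variable {G : Type u} {I : Type v} {J : Type w} [Group G] [Fintype I] [Fintype J]

open Classical in
/-- the inclusion of a block -/
noncomputable def inc {r : ℕ} (b : Fin r) : EE G J →L[ℂ] EE G (Fin r × J) :=
  ∑ j : J, elem (I := Fin r × J) (1 : G) (b, j) j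

theorem inc_eqv {r : ℕ} (b : Fin r) : Eqv (inc b : EE G J →L[ℂ] EE G (Fin r × J)) := by
  classical
  intro k f
  unfold inc
  rw [sum_apply, sum_apply, tr_sum]
  refine Finset.sum_congr rfl fun j _ => ?_
  exact elem_eqv _ _ _ k f

theorem coord_inc {r : ℕ} (b b' : Fin r) (f : EE G J) :
    coord b' (inc b f) = if b' = b then f else 0 := by
  classical
  ext ⟨x, j'⟩
  rw [coord_apply]
  unfold inc
  rw [sum_apply, sum_apply_EE]
  by_cases h : b' = b
  · rw [if_pos h]
    rw [Finset.sum_eq_single j']
    · rw [elem_apply, if_pos (by rw [h]), inv_one, one_mul]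
    · intro j _ hj
      rw [elem_apply, if_neg]
      intro hh
      exact hj (Prod.mk.inj hh).2.symm
    · intro hh
      exact absurd (Finset.mem_univ _) hh
  · rw [if_neg h]
    apply Finset.sum_eq_zero
    intro j _
    rw [elem_apply, if_neg]
    intro hh
    exact h (Prod.mk.inj hh).1

/-- block subspaces -/
noncomputable def blk (r : ℕ) (K : ℕ → Submodule ℂ (EE G J)) : Submodule ℂ (EE G (Fin r × J)) :=
  ⨅ b : Fin r, (K b.1).comap ((coord b : EE G (Fin r × J) →L[ℂ] EE G J) :
    EE G (Fin r × J) →ₗ[ℂ] EE G J)

theorem mem_blk {r : ℕ} {K : ℕ → Submodule ℂ (EE G J)} {f : EE G (Fin r × J)} :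
    f ∈ blk r K ↔ ∀ b : Fin r, coord b f ∈ K b.1 := by
  unfold blk
  rw [Submodule.mem_iInf]
  rfl

theorem inv_blk (r : ℕ) (K : ℕ → Submodule ℂ (EE G J)) (hK : ∀ n, W649.ZL.Inv (K n)) :
    W649.ZL.Inv (blk r K) := by
  intro k f hf
  rw [mem_blk] at hf ⊢
  intro b
  rw [coord_tr]
  exact hK _ k _ (hf b)

theorem closed_blk (r : ℕ) (K : ℕ → Submodule ℂ (EE G J))
    (hK : ∀ n, IsClosed (K n : Set (EE G J))) :
    IsClosed (blk r K : Set (EE G (Fin r × J))) := by
  have h : (blk r K : Set (EE G (Fin r × J))) =
      ⋂ b : Fin r, (coord b : EE G (Fin r × J) →L[ℂ] EE G J) ⁻¹' (K b.1 : Set (EE G J)) := by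
    ext f
    rw [Set.mem_iInter]
    exact mem_blk
  rw [h]
  exact isClosed_iInter fun b => (hK _).preimage (coord b).continuous

theorem vd_blk (r : ℕ) (K : ℕ → Submodule ℂ (EE G J)) (hK : ∀ n, W649.ZL.Inv (K n))
    (hc : ∀ n, IsClosed (K n : Set (EE G J))) :
    vd (blk r K) = ∑ n ∈ Finset.range r, vd (K n) := by
  classical
  let L : ℕ → ℕ → Submodule ℂ (EE G J) := fun m n => if n < m then ⊥ else K n
  have hLi : ∀ m n, W649.ZL.Inv (L m n) := by
    intro m n
    simp only [L]
    split_ifs
    · intro k f hf
      rw [Submodule.mem_bot] at hf ⊢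
      rw [hf, tr_zero]
    · exact hK n
  have hLc : ∀ m n, IsClosed (L m n : Set (EE G J)) := by
    intro m n
    simp only [L]
    split_ifs
    · simp
    · exact hc n
  have key : ∀ m ≤ r, vd (blk r K) = ∑ n ∈ Finset.range m, vd (K n) + vd (blk r (L m)) := by
    intro m
    induction m with
    | zero =>
      intro _
      have h0 : L 0 = K := by
        funext n
        simp [L]
      rw [h0]
      simp
    | succ m ih =>
      intro hm
      rw [ih (by omega), Finset.sum_range_succ, add_assoc]
      congr 1
      let b : Fin r := ⟨m, by omega⟩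
      have h5 := rank_nullity (coord (G := G) (J := J) b) (coord_tr b)
        (inv_blk r (L m) (hLi m)) (closed_blk r (L m) (hLc m))
      have e1 : blk r (L m) ⊓ LinearMap.ker ((coord b : EE G (Fin r × J) →L[ℂ] EE G J) :
          EE G (Fin r × J) →ₗ[ℂ] EE G J) = blk r (L (m + 1)) := by
        ext f
        rw [Submodule.mem_inf, mem_blk, mem_blk]
        constructor
        · rintro ⟨h1, h2⟩ c
          have h3 := h1 c
          simp only [L] at h3 ⊢
          by_cases hc1 : c.1 < m
          · rw [if_pos hc1] at h3
            rw [if_pos (by omega)]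
            exact h3
          · rw [if_neg hc1] at h3
            by_cases hc2 : c.1 = m
            · have hcb : c = b := Fin.ext hc2
              rw [if_pos (by omega), hcb, Submodule.mem_bot]
              exact h2
            · rw [if_neg (by omega)]
              exact h3
        · intro h1
          constructor
          · intro c
            have h3 := h1 c
            simp only [L] at h3 ⊢
            by_cases hc1 : c.1 < m
            · rw [if_pos (by omega)] at h3
              rw [if_pos hc1]
              exact h3
            · rw [if_neg hc1]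
              by_cases hc2 : c.1 = m
              · rw [if_pos (by omega), Submodule.mem_bot] at h3
                rw [h3]
                exact Submodule.zero_mem _
              · rw [if_neg (by omega)] at h3
                exact h3
          · have h3 := h1 b
            simp only [L] at h3
            rw [if_pos (by simp [b]), Submodule.mem_bot] at h3
            exact h3
      have e2 : (blk r (L m)).map ((coord b : EE G (Fin r × J) →L[ℂ] EE G J) :
          EE G (Fin r × J) →ₗ[ℂ] EE G J) = K m := by
        ext y
        constructor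
        · rintro ⟨f, hf, rfl⟩
          have h3 := (mem_blk.1 hf) b
          simp only [L] at h3
          rw [if_neg (by simp [b])] at h3
          exact h3
        · intro hy
          refine ⟨inc b y, ?_, ?_⟩
          · refine mem_blk.2 fun c => ?_
            rw [coord_inc]
            by_cases hcb : c = b
            · rw [if_pos hcb, hcb]
              simp only [L]
              rw [if_neg (by simp [b])]
              exact hy
            · rw [if_neg hcb]
              exact Submodule.zero_mem _
          · change coord b (inc b y) = y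
            rw [coord_inc, if_pos rfl]
      rw [e1, e2] at h5
      rw [h5, add_comm]
  rw [key r le_rfl]
  have h0 : blk r (L r) = ⊥ := by
    rw [eq_bot_iff]
    intro f hf
    rw [Submodule.mem_bot]
    apply eq_zero_of_coord
    intro b
    have h3 := (mem_blk.1 hf) b
    simp only [L] at h3
    rw [if_pos b.2, Submodule.mem_bot] at h3
    exact h3
  rw [h0, vd_bot, add_zero]

theorem inv_orth {P : Submodule ℂ (EE G J)} (hP : W649.ZL.Inv P) : W649.ZL.Inv Pᗮ := by
  intro k f hf
  rw [Submodule.mem_orthogonal] at hf ⊢
  intro y hy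
  have h := inner_tr_left k⁻¹ y f
  rw [inv_inv] at h
  rw [← h]
  exact hf _ (hP _ _ hy)

theorem vd_orth {P : Submodule ℂ (EE G J)} (hc : IsClosed (P : Set (EE G J))) :
    vd Pᗮ = Fintype.card J - vd P := by
  have h := vd_sub hc (Q := ⊤) (by simp) le_top
  rw [top_inf_eq, vd_top] at h
  exact h

/-- the part of a subspace outside another one -/
theorem vd_le_add {U N : Submodule ℂ (EE G J)} (hU : W649.ZL.Inv U) (hUc : IsClosed (U : Set (EE G J)))
    (hN : W649.ZL.Inv N) (hNc : IsClosed (N : Set (EE G J))) : vd U ≤ vd (U ⊓ Nᗮ) + vd N := by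
  have : CompleteSpace N := hNc.completeSpace_coe
  have h := rank_nullity N.starProjection (proj_tr hN) hU hUc
  have e1 : U ⊓ LinearMap.ker (N.starProjection : EE G J →ₗ[ℂ] EE G J) = U ⊓ Nᗮ := by
    ext f
    rw [Submodule.mem_inf, Submodule.mem_inf]
    refine and_congr_right fun _ => ?_
    exact Submodule.starProjection_apply_eq_zero_iff N
  have e2 : vd (U.map (N.starProjection : EE G J →ₗ[ℂ] EE G J)) ≤ vd N := by
    apply vd_mono
    rintro y ⟨x, _, rfl⟩
    exact Submodule.starProjection_apply_mem _ _
  rw [e1] at h
  linarith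

/-- Vandermonde -/
theorem vander {r : ℕ} (t : Fin r → ℂ) (ht : Function.Injective t) (x : Fin r → EE G J)
    (h : ∀ m : ℕ, ∑ i, t i ^ m • x i = 0) (i : Fin r) : x i = 0 := by
  classical
  let Φ : Polynomial ℂ →ₗ[ℂ] EE G J :=
    { toFun := fun q => ∑ i, q.eval (t i) • x i
      map_add' := by
        intro p q
        rw [← Finset.sum_add_distrib]
        refine Finset.sum_congr rfl fun j _ => ?_
        rw [Polynomial.eval_add, add_smul]
      map_smul' := by
        intro c q
        rw [RingHom.id_apply, Finset.smul_sum]
        refine Finset.sum_congr rfl fun j _ => ?_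
        rw [Polynomial.eval_smul, smul_eq_mul, mul_smul] }
  have hΦ : Φ = 0 := by
    apply Polynomial.lhom_ext'
    intro n
    apply LinearMap.ext
    intro a
    change ∑ j, ((Polynomial.monomial n a).eval (t j)) • x j = 0
    have h1 : ∑ j, ((Polynomial.monomial n a).eval (t j)) • x j = a • ∑ j, t j ^ n • x j := by
      rw [Finset.smul_sum]
      refine Finset.sum_congr rfl fun j _ => ?_
      rw [Polynomial.eval_monomial, mul_smul]
    rw [h1, h n, smul_zero]
  have h2 := DFunLike.congr_fun hΦ (∏ j ∈ Finset.univ.erase i, (Polynomial.X - Polynomial.C (t j)))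
  have h3 : (∑ k, (∏ j ∈ Finset.univ.erase i,
      (Polynomial.X - Polynomial.C (t j))).eval (t k) • x k : EE G J) = 0 := h2
  rw [Finset.sum_eq_single i] at h3
  · rw [Polynomial.eval_prod] at h3
    rcases smul_eq_zero.1 h3 with h4 | h4
    · exfalso
      rw [Finset.prod_eq_zero_iff] at h4
      obtain ⟨j, hj, h5⟩ := h4
      rw [Polynomial.eval_sub, Polynomial.eval_X, Polynomial.eval_C, sub_eq_zero] at h5
      exact (Finset.ne_of_mem_erase hj) (ht h5).symm
    · exact h4
  · intro k _ hk
    rw [Polynomial.eval_prod, Finset.prod_eq_zero (i := k)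
      (Finset.mem_erase.2 ⟨hk, Finset.mem_univ _⟩), zero_smul]
    rw [Polynomial.eval_sub, Polynomial.eval_X, Polynomial.eval_C, sub_self]
  · intro hh
    exact absurd (Finset.mem_univ _) hh

end

end Pool.Agent.V1132.KD
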