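import Mathlib

set_option autoImplicit false

/-! The generic value, from a Bezout-type bound. -/

namespace Pool.Agent.V1132.KD

theorem generic (f : ℂ → ℝ) (hf0 : ∀ z, 0 ≤ f z) (D : ℕ) (M : ℝ)
    (hb : ∀ (w : ℂ) (S : Finset ℂ), ∑ z ∈ S, (f z - f w) ≤ D * (M - f w)) :
    ∃ g : ℝ, 0 ≤ g ∧ (∀ z, g ≤ f z) ∧ {z | f z ≠ g}.Countable ∧
      (∀ S : Finset ℂ, ∑ z ∈ S, (f z - g) ≤ D * (M - g)) ∧
      ∀ d : ℝ, 0 < d → {z | g + d ≤ f z}.Finite ∧
        ({z | g + d ≤ f z}.ncard : ℝ) ≤ D * (M - g) / d := by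
  have hbdd : BddBelow (Set.range f) := ⟨0, by rintro _ ⟨z, rfl⟩; exact hf0 z⟩
  set g : ℝ := ⨅ z, f z with hg
  have hgf : ∀ z, g ≤ f z := fun z => ciInf_le hbdd z
  have hg0 : 0 ≤ g := le_ciInf hf0
  have hS : ∀ S : Finset ℂ, ∑ z ∈ S, (f z - g) ≤ D * (M - g) := by
    intro S
    apply le_of_forall_pos_le_add
    intro ε hε
    have hδ : 0 < ε / (S.card + 1) := by positivity
    obtain ⟨w, hw⟩ := exists_lt_of_ciInf_lt (show ⨅ z, f z < g + ε / (S.card + 1) by
      rw [← hg]; linarith)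
    have h1 := hb w S
    have h2 : ∑ z ∈ S, (f z - g) = ∑ z ∈ S, (f z - f w) + S.card * (f w - g) := by
      rw [← nsmul_eq_mul, ← Finset.sum_const, ← Finset.sum_add_distrib]
      refine Finset.sum_congr rfl fun z _ => ?_
      ring
    have h3 : (S.card : ℝ) * (f w - g) ≤ ε := by
      have h4 : f w - g ≤ ε / (S.card + 1) := by linarith
      calc (S.card : ℝ) * (f w - g) ≤ (S.card + 1) * (f w - g) := by
            have := hgf w
            nlinarith
        _ ≤ (S.card + 1) * (ε / (S.card + 1)) := by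
            apply mul_le_mul_of_nonneg_left h4
            positivity
        _ = ε := by
            field_simp
    have h5 : (D : ℝ) * (M - f w) ≤ D * (M - g) := by
      apply mul_le_mul_of_nonneg_left _ (Nat.cast_nonneg _)
      have := hgf w
      linarith
    rw [h2]
    linarith
  have hfin : ∀ d : ℝ, 0 < d → {z | g + d ≤ f z}.Finite ∧
      ({z | g + d ≤ f z}.ncard : ℝ) ≤ D * (M - g) / d := by
    intro d hd
    have hcard : ∀ S : Finset ℂ, (S : Set ℂ) ⊆ {z | g + d ≤ f z} →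
        (S.card : ℝ) ≤ D * (M - g) / d := by
      intro S hSs
      rw [le_div_iff₀ hd]
      refine le_trans ?_ (hS S)
      rw [← nsmul_eq_mul, ← Finset.sum_const]
      refine Finset.sum_le_sum fun z hz => ?_
      have : g + d ≤ f z := hSs hz
      linarith
    have hfi : {z | g + d ≤ f z}.Finite := by
      by_contra hinf
      obtain ⟨n, hn⟩ := exists_nat_gt ((D : ℝ) * (M - g) / d)
      obtain ⟨S, hS1, hS2⟩ := Set.Infinite.exists_subset_card_eq hinf n
      have := hcard S hS1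
      rw [hS2] at this
      linarith
    refine ⟨hfi, ?_⟩
    rw [Set.ncard_eq_toFinset_card _ hfi]
    exact hcard _ (by simp)
  refine ⟨g, hg0, hgf, ?_, hS, hfin⟩
  have hsub : {z | f z ≠ g} ⊆ ⋃ n : ℕ, {z | g + 1 / ((n : ℝ) + 1) ≤ f z} := by
    intro z hz
    have h1 : g < f z := lt_of_le_of_ne (hgf z) (Ne.symm hz)
    obtain ⟨n, hn⟩ := exists_nat_one_div_lt (sub_pos.2 h1)
    rw [Set.mem_iUnion]
    exact ⟨n, by change g + 1 / ((n : ℝ) + 1) ≤ f z; linarith⟩
  exact (Set.countable_iUnion fun n => (hfin _ (by positivity)).1.countable).mono hsub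

end Pool.Agent.V1132.KD
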