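import Pool.Agent.V1132.KD.Bez

set_option autoImplicit false
set_option linter.unusedSectionVars false

open scoped InnerProductSpace InnerProduct ENNReal

/-! Kernel dimensions along operator polynomials: the bound. -/

namespace Pool.Agent.V1132.KD

open Pool.Agent.W649.ZL

universe u v w

section
variable {G : Type u} {I : Type v} {J : Type w} [Group G] [Fintype I] [Fintype J]

/-- kernel of an operator -/
noncomputable abbrev kr (T : EE G J →L[ℂ] EE G I) : Submodule ℂ (EE G J) :=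
  LinearMap.ker (T : EE G J →ₗ[ℂ] EE G I)

/-- value of an operator polynomial of degree at most `D` -/
noncomputable def pv (D : ℕ) (B : ℕ → EE G J →L[ℂ] EE G I) (s : ℂ) : EE G J →L[ℂ] EE G I :=
  ∑ k ∈ Finset.range (D + 1), s ^ k • B k

theorem pv_apply (D : ℕ) (B : ℕ → EE G J →L[ℂ] EE G I) (s : ℂ) (f : EE G J) :
    pv D B s f = ∑ k ∈ Finset.range (D + 1), s ^ k • B k f := by
  unfold pv
  rw [sum_apply]
  rfl

theorem pv_eqv (D : ℕ) (B : ℕ → EE G J →L[ℂ] EE G I) (hB : ∀ k, Eqv (B k)) (s : ℂ) :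
    Eqv (pv D B s) := by
  intro k f
  rw [pv_apply, pv_apply, tr_sum]
  refine Finset.sum_congr rfl fun i _ => ?_
  rw [hB, tr_smul]

/-- the moment operator -/
noncomputable def mom (r D : ℕ) (t : ℕ → ℂ) : EE G (Fin r × J) →L[ℂ] EE G (Fin D × J) :=
  ∑ b : Fin r, ∑ j : Fin D, t b.1 ^ j.1 • (inc j).comp (coord b)

theorem mom_apply (r D : ℕ) (t : ℕ → ℂ) (f : EE G (Fin r × J)) :
    mom r D t f = ∑ b : Fin r, ∑ j : Fin D, t b.1 ^ j.1 • inc j (coord b f) := by
  unfold mom
  rw [sum_apply]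
  refine Finset.sum_congr rfl fun b _ => ?_
  rw [sum_apply]
  rfl

theorem mom_eqv (r D : ℕ) (t : ℕ → ℂ) :
    Eqv (mom r D t : EE G (Fin r × J) →L[ℂ] EE G (Fin D × J)) := by
  intro k f
  rw [mom_apply, mom_apply, tr_sum]
  refine Finset.sum_congr rfl fun b _ => ?_
  rw [tr_sum]
  refine Finset.sum_congr rfl fun j _ => ?_
  rw [coord_tr, inc_eqv, tr_smul]

theorem coord_mom (r D : ℕ) (t : ℕ → ℂ) (f : EE G (Fin r × J)) (j : Fin D) :
    coord j (mom r D t f) = ∑ b : Fin r, t b.1 ^ j.1 • coord b f := by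
  rw [mom_apply, map_sum]
  refine Finset.sum_congr rfl fun b _ => ?_
  rw [map_sum, Finset.sum_eq_single j]
  · rw [map_smul, coord_inc, if_pos rfl]
  · intro c _ hc
    rw [map_smul, coord_inc, if_neg (Ne.symm hc), smul_zero]
  · intro h
    exact absurd (Finset.mem_univ _) h

/-- the relations propagate -/
theorem moments (D : ℕ) (B : ℕ → EE G J →L[ℂ] EE G I) (r : ℕ) (s : ℕ → ℂ)
    (hs0 : ∀ n, n < r → s n ≠ 0) (x : Fin r → EE G J) (hx : ∀ b : Fin r, pv D B (s b.1) (x b) = 0)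
    (hx' : ∀ b : Fin r, x b ∈ (kr (B 0))ᗮ)
    (h0 : ∀ j, j < D → ∑ b : Fin r, ((s b.1)⁻¹) ^ j • x b = 0) (m : ℕ) :
    ∑ b : Fin r, ((s b.1)⁻¹) ^ m • x b = 0 := by
  induction m using Nat.strong_induction_on with
  | _ m ih =>
    by_cases hm : m < D
    · exact h0 m hm
    push Not at hm
    set y : EE G J := ∑ b : Fin r, ((s b.1)⁻¹) ^ m • x b with hy
    have h1 : y ∈ (kr (B 0))ᗮ := Submodule.sum_mem _ fun b _ => Submodule.smul_mem _ _ (hx' b)
    have h2 : B 0 y = 0 := by
      have e1 : B 0 y = ∑ b : Fin r, ((s b.1)⁻¹) ^ m • B 0 (x b) := by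
        rw [hy, map_sum]
        refine Finset.sum_congr rfl fun b _ => ?_
        rw [map_smul]
      have e2 : ∀ b : Fin r, ((s b.1)⁻¹) ^ m • B 0 (x b) =
          - ∑ k ∈ Finset.range D, B (k + 1) (((s b.1)⁻¹) ^ (m - (k + 1)) • x b) := by
        intro b
        have h3 := hx b
        rw [pv_apply, Finset.sum_range_succ', pow_zero, one_smul] at h3
        have h4 : B 0 (x b) = - ∑ k ∈ Finset.range D, s b.1 ^ (k + 1) • B (k + 1) (x b) :=
          eq_neg_of_add_eq_zero_right h3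
        rw [h4, smul_neg, Finset.smul_sum]
        congr 1
        refine Finset.sum_congr rfl fun k hk => ?_
        rw [Finset.mem_range] at hk
        rw [map_smul, smul_smul]
        congr 1
        have hne := hs0 b.1 b.2
        have h5 : m = (m - (k + 1)) + (k + 1) := by omega
        conv_lhs => rw [h5]
        rw [pow_add, mul_assoc, ← mul_pow, inv_mul_cancel₀ hne, one_pow, mul_one]
      rw [e1, Finset.sum_congr rfl fun b _ => e2 b, Finset.sum_neg_distrib, Finset.sum_comm,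
        neg_eq_zero]
      apply Finset.sum_eq_zero
      intro k hk
      rw [Finset.mem_range] at hk
      rw [← map_sum, ih (m - (k + 1)) (by omega), map_zero]
    have h3 : y ∈ kr (B 0) := h2
    have h4 : ⟪y, y⟫_ℂ = 0 := (Submodule.mem_orthogonal _ _).1 h1 y h3
    exact inner_self_eq_zero.1 h4

/-- **The bound**, expansion at `0`. -/
theorem bez0 (D : ℕ) (B : ℕ → EE G J →L[ℂ] EE G I) (hB : ∀ k, Eqv (B k)) (r : ℕ) (s : ℕ → ℂ)
    (hs0 : ∀ n, n < r → s n ≠ 0) (hinj : ∀ a < r, ∀ b < r, s a = s b → a = b) :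
    ∑ n ∈ Finset.range r, (vd (kr (pv D B (s n))) - vd (kr (B 0))) ≤
      D * (Fintype.card J - vd (kr (B 0))) := by
  classical
  set N : Submodule ℂ (EE G J) := kr (B 0) with hN
  have hNi : W649.ZL.Inv N := inv_ker _ (hB 0)
  have hNc : IsClosed (N : Set (EE G J)) := ContinuousLinearMap.isClosed_ker (B 0)
  let K : ℕ → Submodule ℂ (EE G J) := fun n => kr (pv D B (s n)) ⊓ Nᗮ
  have hKi : ∀ n, W649.ZL.Inv (K n) := fun n =>
    inv_inf (inv_ker _ (pv_eqv D B hB _)) (inv_orth hNi)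
  have hKc : ∀ n, IsClosed (K n : Set (EE G J)) := by
    intro n
    change IsClosed ((kr (pv D B (s n)) ⊓ Nᗮ : Submodule ℂ (EE G J)) : Set (EE G J))
    rw [Submodule.coe_inf]
    exact (ContinuousLinearMap.isClosed_ker (pv D B (s n))).inter
      (Submodule.isClosed_orthogonal N)
  have h1 : ∀ n, vd (kr (pv D B (s n))) ≤ vd (K n) + vd N := fun n =>
    vd_le_add (inv_ker _ (pv_eqv D B hB _)) (ContinuousLinearMap.isClosed_ker (pv D B (s n)))
      hNi hNc
  let t : ℕ → ℂ := fun n => (s n)⁻¹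
  have h2 := rank_nullity (mom (G := G) (J := J) r D t) (mom_eqv r D t)
    (inv_blk r K hKi) (closed_blk r K hKc)
  have h3 : blk r K ⊓ LinearMap.ker ((mom r D t : EE G (Fin r × J) →L[ℂ] EE G (Fin D × J)) :
      EE G (Fin r × J) →ₗ[ℂ] EE G (Fin D × J)) = ⊥ := by
    rw [eq_bot_iff]
    rintro f ⟨hf1, hf2⟩
    rw [Submodule.mem_bot]
    have hf1' := mem_blk.1 hf1
    have hf2' : mom r D t f = 0 := hf2
    have hmom : ∀ m : ℕ, ∑ b : Fin r, ((s b.1)⁻¹) ^ m • coord b f = 0 := by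
      apply moments D B r s hs0 (fun b => coord b f)
      · intro b
        exact (hf1' b).1
      · intro b
        exact (hf1' b).2
      · intro j hj
        have h4 := coord_mom r D t f ⟨j, hj⟩
        rw [hf2', map_zero] at h4
        exact h4.symm
    apply eq_zero_of_coord
    intro b
    apply vander (fun b : Fin r => (s b.1)⁻¹) ?_ (fun b => coord b f) hmom b
    intro a c hac
    have h4 : s a.1 = s c.1 := inv_injective hac
    exact Fin.ext (hinj a.1 a.2 c.1 c.2 h4)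
  have h4 : vd ((blk r K).map ((mom r D t : EE G (Fin r × J) →L[ℂ] EE G (Fin D × J)) :
      EE G (Fin r × J) →ₗ[ℂ] EE G (Fin D × J))) ≤ D * vd Nᗮ := by
    have h5 : vd (blk D (fun _ => Nᗮ) : Submodule ℂ (EE G (Fin D × J))) = D * vd Nᗮ := by
      rw [vd_blk D _ (fun _ => inv_orth hNi) (fun _ => Submodule.isClosed_orthogonal N),
        Finset.sum_const, Finset.card_range, nsmul_eq_mul]
    rw [← h5]
    apply vd_mono
    rintro y ⟨f, hf, rfl⟩
    refine mem_blk.2 fun j => ?_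
    change coord j (mom r D t f) ∈ Nᗮ
    rw [coord_mom]
    exact Submodule.sum_mem _ fun b _ => Submodule.smul_mem _ _ ((mem_blk.1 hf) b).2
  rw [h3, vd_bot, zero_add, vd_blk r K hKi hKc] at h2
  rw [vd_orth hNc] at h4
  have h5 : ∑ n ∈ Finset.range r, (vd (kr (pv D B (s n))) - vd N) ≤
      ∑ n ∈ Finset.range r, vd (K n) := by
    apply Finset.sum_le_sum
    intro n _
    have := h1 n
    linarith
  linarith

/-- coefficients of the expansion at `w` -/
noncomputable def shift (D : ℕ) (A : ℕ → EE G J →L[ℂ] EE G I) (w : ℂ) (k : ℕ) :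
    EE G J →L[ℂ] EE G I :=
  ∑ l ∈ Finset.range (D + 1), ((l.choose k : ℂ) * w ^ (l - k)) • A l

theorem shift_eqv (D : ℕ) (A : ℕ → EE G J →L[ℂ] EE G I) (hA : ∀ k, Eqv (A k)) (w : ℂ) (k : ℕ) :
    Eqv (shift D A w k) := by
  intro g f
  unfold shift
  rw [sum_apply, sum_apply, tr_sum]
  refine Finset.sum_congr rfl fun i _ => ?_
  change (_ : ℂ) • A i (tr g f) = tr g ((_ : ℂ) • A i f)
  rw [hA, tr_smul]

theorem pv_shift (D : ℕ) (A : ℕ → EE G J →L[ℂ] EE G I) (w s : ℂ) :
    pv D (shift D A w) s = pv D A (w + s) := by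
  unfold pv shift
  have e1 : ∀ k ∈ Finset.range (D + 1), (s ^ k • ∑ l ∈ Finset.range (D + 1),
      ((l.choose k : ℂ) * w ^ (l - k)) • A l) = ∑ l ∈ Finset.range (D + 1),
      (s ^ k * ((l.choose k : ℂ) * w ^ (l - k))) • A l := by
    intro k _
    rw [Finset.smul_sum]
    refine Finset.sum_congr rfl fun l _ => ?_
    rw [smul_smul]
  rw [Finset.sum_congr rfl e1, Finset.sum_comm]
  refine Finset.sum_congr rfl fun l hl => ?_
  rw [Finset.mem_range] at hl
  rw [← Finset.sum_smul]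
  congr 1
  rw [add_comm w s, add_pow]
  have h1 : Finset.range (l + 1) ⊆ Finset.range (D + 1) := by
    intro k hk
    rw [Finset.mem_range] at hk ⊢
    omega
  rw [← Finset.sum_subset h1]
  · refine Finset.sum_congr rfl fun k _ => ?_
    ring
  · intro k _ hk
    rw [Finset.mem_range] at hk
    rw [Nat.choose_eq_zero_of_lt (by omega)]
    simp

theorem shift_zero (D : ℕ) (A : ℕ → EE G J →L[ℂ] EE G I) (w : ℂ) :
    shift D A w 0 = pv D A w := by
  unfold shift pv
  refine Finset.sum_congr rfl fun l _ => ?_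
  simp

/-- **The bound.** -/
theorem bez (D : ℕ) (A : ℕ → EE G J →L[ℂ] EE G I) (hA : ∀ k, Eqv (A k)) (w : ℂ)
    (S : Finset ℂ) :
    ∑ z ∈ S, (vd (kr (pv D A z)) - vd (kr (pv D A w))) ≤
      D * (Fintype.card J - vd (kr (pv D A w))) := by
  classical
  have h0 : ∑ z ∈ S, (vd (kr (pv D A z)) - vd (kr (pv D A w))) =
      ∑ z ∈ S.erase w, (vd (kr (pv D A z)) - vd (kr (pv D A w))) := by
    by_cases hw : w ∈ S
    · rw [← Finset.add_sum_erase S _ hw, sub_self, zero_add]
    · rw [Finset.erase_eq_of_notMem hw]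
  rw [h0]
  set S' := S.erase w with hS'
  have hcard : ∃ r : ℕ, ∃ z : ℕ → ℂ, (∀ a < r, ∀ b < r, z a = z b → a = b) ∧
      (∀ n < r, z n ∈ S') ∧ ∀ F : ℂ → ℝ, ∑ z ∈ S', F z = ∑ n ∈ Finset.range r, F (z n) := by
    refine ⟨S'.card, fun n => if h : n < S'.card then (S'.equivFin.symm ⟨n, h⟩ : S').1 else 0,
      ?_, ?_, ?_⟩
    · intro a ha b hb hab
      simp only [dif_pos ha, dif_pos hb] at hab
      have h1 := S'.equivFin.symm.injective (Subtype.ext hab)
      exact congrArg Fin.val h1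
    · intro n hn
      simp only [dif_pos hn]
      exact (S'.equivFin.symm ⟨n, hn⟩ : S').2
    · intro F
      rw [← Finset.sum_coe_sort S' F, ← S'.equivFin.symm.sum_comp, Finset.sum_range]
      refine Finset.sum_congr rfl fun i _ => ?_
      simp only [dif_pos i.2]
  obtain ⟨r, z, hz1, hz2, hz3⟩ := hcard
  rw [hz3]
  have h1 := bez0 D (shift D A w) (shift_eqv D A hA w) r (fun n => z n - w) (by
    intro n hn h
    have h2 := Finset.ne_of_mem_erase (hz2 n hn)
    exact h2 (sub_eq_zero.1 h)) (by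
    intro a ha b hb hab
    exact hz1 a ha b hb (by simpa using hab))
  simp only [pv_shift, shift_zero, add_sub_cancel] at h1
  exact h1

end

end Pool.Agent.V1132.KD
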